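import Mathlib

/-!
# Deformations of the Riemann hierarchy over a field `K`: definitions and the first order invariant

Generalisation to arbitrary fields of the library files for the complex numbers, with a larger family
of examples.

`K` is a field. `𝒜_u = K[[u]][u_1, u_2, …]` is `MvPolynomial ℕ (PowerSeries K)`, the variable `X k` being `u_{k+1}`.
-/

open MvPolynomial

namespace Pool.Agent.H58RH

universe u

set_option linter.all false

/-- differential polynomials `K[[u]][u_1, u_2, …]`; the variable `X k` is `u_{k+1}`. -/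
abbrev DP (K : Type u) [Field K] := MvPolynomial ℕ (PowerSeries K)

variable {K : Type u} [Field K]

/-- `∂/∂u`: differentiate every coefficient. -/
noncomputable def dU (G : DP K) : DP K :=
  ∑ s ∈ G.support, monomial s (PowerSeries.derivative K (coeff s G))

/-- `∂/∂u_k`, `k ≥ 0` (`u_0 = u`). -/
noncomputable def pd (k : ℕ) (G : DP K) : DP K :=
  match k with
  | 0 => dU G
  | k + 1 => pderiv k G

/-- the total `x`-derivative `∂_x = ∑_{k ≥ 0} u_{k+1} ∂/∂u_k`. -/
noncomputable def dx (G : DP K) : DP K := ∑ᶠ k : ℕ, X k * pd k G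

/-- the expression `∑_{k ≥ 0} (∂_x^k Q ∂R/∂u_k − ∂_x^k R ∂Q/∂u_k)` for `Q, R ∈ 𝒜_u`. -/
noncomputable def brk (Q R : DP K) : DP K := ∑ᶠ k : ℕ, (dx^[k] Q * pd k R - dx^[k] R * pd k Q)

/-- elements of `𝒜_u[[ε]]`. -/
abbrev EDP (K : Type u) [Field K] := PowerSeries (DP K)

/-! ### basic lemmas -/

theorem coeff_dU (s : ℕ →₀ ℕ) (G : DP K) : coeff s (dU G) = PowerSeries.derivative K (coeff s G) := by
  classical
  unfold dU
  rw [coeff_sum]
  simp only [coeff_monomial]
  rw [Finset.sum_ite_eq']
  split_ifs with h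
  · rfl
  · rw [notMem_support_iff.1 h, map_zero]

theorem dU_add (F G : DP K) : dU (F + G) = dU F + dU G := by
  ext1 s; rw [coeff_dU, coeff_add, coeff_add, coeff_dU, coeff_dU, map_add]
theorem dU_C (a : PowerSeries K) : dU (C a) = C (PowerSeries.derivative K a) := by
  classical
  ext1 s; rw [coeff_dU, coeff_C, coeff_C]; split_ifs <;> simp
theorem dU_mul_X (G : DP K) (k : ℕ) : dU (G * X k) = dU G * X k := by
  classical
  ext1 s; rw [coeff_dU, coeff_mul_X', coeff_mul_X', coeff_dU]; split_ifs <;> simp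

theorem pd_add (k : ℕ) (F G : DP K) : pd k (F + G) = pd k F + pd k G := by
  cases k with
  | zero => exact dU_add F G
  | succ k => exact map_add _ _ _
theorem pd_mul_X (k j : ℕ) (G : DP K) : pd k (G * X j) = pd k G * X j + (if k = j + 1 then G else 0) := by
  classical
  cases k with
  | zero =>
    rw [if_neg (by omega)]
    show dU (G * X j) = _
    rw [dU_mul_X, add_zero]; rfl
  | succ k =>
    show pderiv k (G * X j) = pderiv k G * X j + _
    rw [Derivation.leibniz, pderiv_X]
    by_cases hk : k = j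
    · subst hk; rw [Pi.single_eq_same, if_pos rfl]; simp only [smul_eq_mul, mul_one]; ring
    · rw [Pi.single_eq_of_ne (Ne.symm hk), if_neg (by omega)]; simp only [smul_eq_mul]; ring
theorem pd_C (k : ℕ) (a : PowerSeries K) : pd k (C a) = if k = 0 then C (PowerSeries.derivative K a) else 0 := by
  cases k with
  | zero => rw [if_pos rfl]; exact dU_C a
  | succ k => rw [if_neg (by omega)]; exact pderiv_C

theorem pd_fin (G : DP K) : ∃ N, ∀ k, N ≤ k → pd k G = 0 := by
  induction G using MvPolynomial.induction_on with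
  | C a => exact ⟨1, fun k hk => by rw [pd_C, if_neg (by omega)]⟩
  | add p q hp hq =>
    obtain ⟨N1, h1⟩ := hp
    obtain ⟨N2, h2⟩ := hq
    exact ⟨max N1 N2, fun k hk => by rw [pd_add, h1 k (by omega), h2 k (by omega), add_zero]⟩
  | mul_X p i hp =>
    obtain ⟨N1, h1⟩ := hp
    exact ⟨max N1 (i + 2), fun k hk => by rw [pd_mul_X, h1 k (by omega), if_neg (by omega)]; simp⟩

/-- generic sum -/
noncomputable def EE (f : ℕ → DP K) (G : DP K) : DP K := ∑ᶠ k : ℕ, f k * pd k G

theorem EE_sum (f : ℕ → DP K) (G : DP K) (N : ℕ) (hN : ∀ k, N ≤ k → pd k G = 0) :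
    EE f G = ∑ k ∈ Finset.range N, f k * pd k G := by
  unfold EE
  apply finsum_eq_sum_of_support_subset
  intro k hk
  simp only [Finset.coe_range, Set.mem_Iio]
  by_contra h
  apply hk
  simp only
  rw [hN k (by omega), mul_zero]

theorem EE_add (f : ℕ → DP K) (F G : DP K) : EE f (F + G) = EE f F + EE f G := by
  obtain ⟨N1, h1⟩ := pd_fin F
  obtain ⟨N2, h2⟩ := pd_fin G
  rw [EE_sum f F (max N1 N2) (fun k hk => h1 k (by omega)), EE_sum f G (max N1 N2) (fun k hk => h2 k (by omega)),
    EE_sum f (F + G) (max N1 N2) (fun k hk => by rw [pd_add, h1 k (by omega), h2 k (by omega), add_zero]), ← Finset.sum_add_distrib]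
  exact Finset.sum_congr rfl fun k _ => by rw [pd_add, mul_add]

theorem EE_C (f : ℕ → DP K) (a : PowerSeries K) : EE f (C a) = f 0 * C (PowerSeries.derivative K a) := by
  rw [EE_sum f (C a) 1 (fun k hk => by rw [pd_C, if_neg (by omega)])]
  simp [pd_C]

theorem EE_mul_X (f : ℕ → DP K) (G : DP K) (j : ℕ) : EE f (G * X j) = EE f G * X j + G * f (j + 1) := by
  obtain ⟨N1, h1⟩ := pd_fin G
  rw [EE_sum f G (max N1 (j + 2)) (fun k hk => h1 k (by omega)),
    EE_sum f (G * X j) (max N1 (j + 2)) (fun k hk => by rw [pd_mul_X, h1 k (by omega), if_neg (by omega)]; simp), Finset.sum_mul]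
  have : ∀ k ∈ Finset.range (max N1 (j + 2)), f k * pd k (G * X j) = f k * pd k G * X j + (if k = j + 1 then G * f (j + 1) else 0) := by
    intro k _
    rw [pd_mul_X]
    split_ifs with h
    · subst h; ring
    · ring
  rw [Finset.sum_congr rfl this, Finset.sum_add_distrib, Finset.sum_ite_eq', if_pos (by simp)]

theorem dx_eq (G : DP K) : dx G = EE (fun k => X k) G := rfl

theorem brk_eq (Q R : DP K) : brk Q R = EE (fun k => dx^[k] Q) R - EE (fun k => dx^[k] R) Q := by
  obtain ⟨N1, h1⟩ := pd_fin Q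
  obtain ⟨N2, h2⟩ := pd_fin R
  rw [EE_sum _ R (max N1 N2) (fun k hk => h2 k (by omega)), EE_sum _ Q (max N1 N2) (fun k hk => h1 k (by omega)), ← Finset.sum_sub_distrib]
  unfold brk
  apply finsum_eq_sum_of_support_subset
  intro k hk
  simp only [Finset.coe_range, Set.mem_Iio]
  by_contra h
  apply hk
  simp only
  rw [h1 k (by omega), h2 k (by omega), mul_zero, mul_zero, sub_zero]

theorem dx_C (a : PowerSeries K) : dx (C a) = X 0 * C (PowerSeries.derivative K a) := by rw [dx_eq, EE_C]
theorem dx_add (F G : DP K) : dx (F + G) = dx F + dx G := by rw [dx_eq, EE_add]; rfl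
theorem dx_mul_X (G : DP K) (j : ℕ) : dx (G * X j) = dx G * X j + G * X (j + 1) := by rw [dx_eq, EE_mul_X]; rfl



open Finset.HasAntidiagonal (antidiagonal)

/-- `F ∈ Â_{u;d}`: the coefficient of `ε^k` in `F` is homogeneous of degree `k + d`
(`deg u_j = j`, `deg u = 0`). -/
def HasDeg (d : ℕ) (F : EDP K) : Prop :=
  ∀ k, (PowerSeries.coeff k F).IsWeightedHomogeneous (fun j : ℕ => j + 1) (k + d)

/-- The evolutionary equations `u_t = Q` and `u_s = R` commute: every coefficient of `ε^n` in
`∑_k (∂_x^k Q ∂R/∂u_k − ∂_x^k R ∂Q/∂u_k)` vanishes. -/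
def EqCommute (Q R : EDP K) : Prop :=
  ∀ n, ∑ ij ∈ antidiagonal n, brk (PowerSeries.coeff ij.1 Q) (PowerSeries.coeff ij.2 R) = 0

/-- A deformation of the Riemann hierarchy: pairwise commuting equations `u_{t_d} = Q_d`, `d ≥ 0`,
with `Q_d ∈ Â_{u;1}` and `Q_d = u^d/d! u_x + O(ε)`. -/
structure IsDeformation (Q : ℕ → EDP K) : Prop where
  deg : ∀ d, HasDeg 1 (Q d)
  lead : ∀ d, PowerSeries.coeff 0 (Q d) =
    C (PowerSeries.monomial d (((d.factorial : ℕ) : K)⁻¹)) * X 0
  comm : ∀ d e, EqCommute (Q d) (Q e)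

/-- `b_k`, the coefficient of `ε^{k-1} u_k` in the first flow `Q_1` (`u_k` is the variable
`X (k - 1)`). -/
noncomputable def bser (Q : ℕ → EDP K) (k : ℕ) : PowerSeries K :=
  coeff (Finsupp.single (k - 1) 1) (PowerSeries.coeff (k - 1) (Q 1))

/-- The derivative `∑_k ∂_x^k Q ∂V/∂u_k` of `V` along the equation `u_t = Q`. -/
noncomputable def evol (Q V : EDP K) : EDP K := PowerSeries.mk fun n =>
  ∑ ij ∈ antidiagonal n, ∑ᶠ k : ℕ, dx^[k] (PowerSeries.coeff ij.1 Q) * pd k (PowerSeries.coeff ij.2 V)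

/-- `c(u + W) = ∑_m c^{(m)}(u) W^m / m!`, for `W = O(ε)`. -/
noncomputable def substC (W : EDP K) (c : PowerSeries K) : EDP K := PowerSeries.mk fun n =>
  ∑ m ∈ Finset.range (n + 1),
    C (PowerSeries.C (((m.factorial : ℕ) : K)⁻¹) * (PowerSeries.derivative K)^[m] c) *
      PowerSeries.coeff n (W ^ m)

/-- `∂_x` on `A_u[[ε]]`. -/
noncomputable def dxE (W : EDP K) : EDP K := PowerSeries.mk fun n => dx (PowerSeries.coeff n W)

/-- `G(v, v_x, v_xx, …)` for `G ∈ A_u` and `v = u + W`, `W = O(ε)`. -/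
noncomputable def substP (W : EDP K) (G : DP K) : EDP K :=
  ∑ s ∈ G.support, substC W (coeff s G) *
    s.prod fun k m => (PowerSeries.C (X k) + dxE^[k + 1] W) ^ m

/-- `F(v, v_x, v_xx, …; ε)` for `F ∈ A_u[[ε]]` and `v = u + W`, `W = O(ε)`. -/
noncomputable def substE (W F : EDP K) : EDP K := PowerSeries.mk fun n =>
  ∑ ij ∈ antidiagonal n, PowerSeries.coeff ij.2 (substP W (PowerSeries.coeff ij.1 F))

/-- Miura equivalence: for some `v = u + W`, `W = ∑_{k ≥ 1} ε^k f_k` with `f_k ∈ A_{u;k}`, the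
equations `u_{t_d} = Q_d[u]` become `v_{t_d} = Q'_d[v]`. -/
def MiuraEquivalent (Q Q' : ℕ → EDP K) : Prop :=
  ∃ W : EDP K, PowerSeries.coeff 0 W = 0 ∧ HasDeg 0 W ∧ ∀ d, Q d + evol (Q d) W = substE W (Q' d)

/-- `v = u + ∑_{n ≥ 1} ε^n β_n(u) u_x^n` (the series `β 0` is not used). -/
noncomputable def ww (β : ℕ → PowerSeries K) : EDP K :=
  PowerSeries.mk fun n => if n = 0 then C PowerSeries.X else C (β n) * X 0 ^ n

/-- The equations `u_{t_d} = u_x v^d / d!` with `v = u + ∑_{n ≥ 1} ε^n β_n(u) u_x^n`. -/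
noncomputable def fam (β : ℕ → PowerSeries K) (d : ℕ) : EDP K :=
  PowerSeries.C (C (PowerSeries.C (((d.factorial : ℕ) : K)⁻¹)) * X 0) * ww β ^ d

/-! ### homogeneity -/

theorem HasDeg.mul {a b : ℕ} {F G : EDP K} (hF : HasDeg a F) (hG : HasDeg b G) :
    HasDeg (a + b) (F * G) := by
  intro k
  rw [PowerSeries.coeff_mul]
  apply MvPolynomial.IsWeightedHomogeneous.sum
  intro ij hij
  have h := (hF ij.1).mul (hG ij.2)
  rw [Finset.HasAntidiagonal.mem_antidiagonal] at hij
  rwa [show ij.1 + a + (ij.2 + b) = k + (a + b) by omega] at h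

theorem HasDeg.pow {F : EDP K} (hF : HasDeg 0 F) (n : ℕ) : HasDeg 0 (F ^ n) := by
  induction n with
  | zero =>
    intro k
    rw [pow_zero, PowerSeries.coeff_one]
    split_ifs with h
    · subst h; exact isWeightedHomogeneous_one _ _
    · exact isWeightedHomogeneous_zero _ _ _
  | succ n ih => rw [pow_succ]; exact ih.mul hF

theorem hasDeg_w (β : ℕ → PowerSeries K) : HasDeg 0 (ww β) := by
  intro k
  unfold ww
  rw [PowerSeries.coeff_mk]
  split_ifs with h
  · subst h
    exact isWeightedHomogeneous_C _ _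
  · have := (isWeightedHomogeneous_C (fun j : ℕ => j + 1) (β k)).mul
      ((isWeightedHomogeneous_X (PowerSeries K) (fun j : ℕ => j + 1) 0).pow k)
    simpa using this

theorem fam_deg (β : ℕ → PowerSeries K) (d : ℕ) : HasDeg 1 (fam β d) := by
  unfold fam
  have h1 : HasDeg 1 (PowerSeries.C (C (PowerSeries.C (((d.factorial : ℕ) : K)⁻¹)) * X 0 : DP K)) := by
    intro k
    rw [PowerSeries.coeff_C]
    split_ifs with h
    · subst h
      have := (isWeightedHomogeneous_C (fun j : ℕ => j + 1)
        (PowerSeries.C (((d.factorial : ℕ) : K)⁻¹))).mul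
        (isWeightedHomogeneous_X (PowerSeries K) (fun j : ℕ => j + 1) 0)
      simpa using this
    · exact isWeightedHomogeneous_zero _ _ _
  have := h1.mul ((hasDeg_w β).pow d)
  simpa using this

theorem const_w (β : ℕ → PowerSeries K) :
    PowerSeries.constantCoeff (ww β) = C PowerSeries.X := by
  rw [← PowerSeries.coeff_zero_eq_constantCoeff_apply]
  unfold ww
  rw [PowerSeries.coeff_mk, if_pos rfl]

theorem fam_lead (β : ℕ → PowerSeries K) (d : ℕ) : PowerSeries.coeff 0 (fam β d) =
    C (PowerSeries.monomial d (((d.factorial : ℕ) : K)⁻¹)) * X 0 := by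
  unfold fam
  rw [PowerSeries.coeff_zero_eq_constantCoeff_apply, map_mul, map_pow, const_w,
    PowerSeries.constantCoeff_C, ← C_pow, mul_right_comm, ← C_mul]
  congr 2
  ext n
  rw [PowerSeries.coeff_C_mul, PowerSeries.coeff_X_pow, PowerSeries.coeff_monomial]
  split_ifs <;> simp

/-! ### commutation -/

theorem dU_mul (F G : DP K) : dU (F * G) = dU F * G + F * dU G := by
  classical
  ext1 s
  rw [coeff_dU, coeff_mul, map_sum, coeff_add, coeff_mul, coeff_mul, ← Finset.sum_add_distrib]
  refine Finset.sum_congr rfl fun ij _ => ?_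
  rw [Derivation.leibniz, coeff_dU, coeff_dU]
  simp only [smul_eq_mul]
  ring

theorem pd_mul (k : ℕ) (F G : DP K) : pd k (F * G) = pd k F * G + F * pd k G := by
  cases k with
  | zero => exact dU_mul F G
  | succ k =>
    show pderiv k (F * G) = pderiv k F * G + F * pderiv k G
    rw [Derivation.leibniz]
    simp only [smul_eq_mul]
    ring

theorem pd_zero' (k : ℕ) : pd k (0 : DP K) = 0 := by
  have := pd_add k (0 : DP K) 0
  simpa using this

/-- `∂/∂u_k` on `A_u[[ε]]`. -/
noncomputable def pdE (k : ℕ) (F : EDP K) : EDP K := PowerSeries.mk fun n => pd k (PowerSeries.coeff n F)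

theorem coeff_pdE (k n : ℕ) (F : EDP K) : PowerSeries.coeff n (pdE k F) = pd k (PowerSeries.coeff n F) := by
  simp [pdE]

theorem pd_sum' {α : Type*} (k : ℕ) (t : Finset α) (f : α → DP K) :
    pd k (∑ i ∈ t, f i) = ∑ i ∈ t, pd k (f i) := by
  classical
  induction t using Finset.induction_on with
  | empty => simpa using pd_zero' k
  | insert a s ha ih => rw [Finset.sum_insert ha, Finset.sum_insert ha, pd_add, ih]

theorem pdE_mul (k : ℕ) (F G : EDP K) : pdE k (F * G) = pdE k F * G + F * pdE k G := by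
  ext1 n
  rw [coeff_pdE, PowerSeries.coeff_mul, pd_sum', map_add, PowerSeries.coeff_mul,
    PowerSeries.coeff_mul, ← Finset.sum_add_distrib]
  refine Finset.sum_congr rfl fun ij _ => ?_
  rw [pd_mul, coeff_pdE, coeff_pdE]

theorem pdE_add (k : ℕ) (F G : EDP K) : pdE k (F + G) = pdE k F + pdE k G := by
  ext1 n
  rw [coeff_pdE, map_add, pd_add, map_add, coeff_pdE, coeff_pdE]

theorem pdE_C (k : ℕ) (G : DP K) : pdE k (PowerSeries.C G) = PowerSeries.C (pd k G) := by
  ext1 n
  rw [coeff_pdE, PowerSeries.coeff_C, PowerSeries.coeff_C]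
  split_ifs
  · rfl
  · exact pd_zero' k

theorem pdE_X (k : ℕ) : pdE k (PowerSeries.X : EDP K) = 0 := by
  ext1 n
  rw [coeff_pdE, PowerSeries.coeff_X]
  split_ifs
  · have h1 : (1 : DP K) = C 1 := (map_one C).symm
    rw [h1, pd_C]
    split_ifs <;> simp
  · rw [pd_zero']; simp

theorem pdE_pow (k : ℕ) (W : EDP K) (n : ℕ) : ∃ A : EDP K, ∀ j, pdE j (W ^ n) = A * pdE j W := by
  refine ⟨(n : EDP K) * W ^ (n - 1), fun j => ?_⟩
  induction n with
  | zero =>
    rw [pow_zero]
    have : (1 : EDP K) = PowerSeries.C (C 1) := by simp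
    rw [this, pdE_C, pd_C]
    simp
  | succ n ih =>
    rw [pow_succ, pdE_mul, ih]
    rcases n with _ | n
    · simp
    · simp only [Nat.add_sub_cancel, Nat.cast_add, Nat.cast_one]
      ring

/-- functions of `u` and `u_x` only -/
def First (F : EDP K) : Prop := ∀ k, 2 ≤ k → pdE k F = 0

theorem First.mul {F G : EDP K} (hF : First F) (hG : First G) : First (F * G) := by
  intro k hk
  rw [pdE_mul, hF k hk, hG k hk]; ring
theorem First.add {F G : EDP K} (hF : First F) (hG : First G) : First (F + G) := by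
  intro k hk
  rw [pdE_add, hF k hk, hG k hk]; ring
theorem first_X : First (PowerSeries.X : EDP K) := fun k _ => pdE_X k
theorem first_Cc (a : PowerSeries K) : First (PowerSeries.C (C a)) := by
  intro k hk
  rw [pdE_C, pd_C, if_neg (by omega), map_zero]
theorem pd_CX0 (k : ℕ) (a : PowerSeries K) : pd k (C a * X 0 : DP K) =
    if k = 0 then C (PowerSeries.derivative K a) * X 0 else if k = 1 then C a else 0 := by
  rw [pd_mul_X, pd_C]
  rcases k with _ | _ | k <;> simp
theorem first_CX (a : PowerSeries K) : First (PowerSeries.C (C a * X 0)) := by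
  intro k hk
  rw [pdE_C, pd_CX0, if_neg (by omega), if_neg (by omega), map_zero]
theorem First.pow {F : EDP K} (hF : First F) (n : ℕ) : First (F ^ n) := by
  intro k hk
  obtain ⟨A, hA⟩ := pdE_pow k F n
  rw [hA, hF k hk, mul_zero]

theorem brk_first (Q R : DP K) (hQ : ∀ k, 2 ≤ k → pd k Q = 0) (hR : ∀ k, 2 ≤ k → pd k R = 0) :
    brk Q R = Q * pd 0 R - R * pd 0 Q + X 0 * (pd 0 Q * pd 1 R - pd 0 R * pd 1 Q) := by
  rw [brk_eq, EE_sum _ R 2 hR, EE_sum _ Q 2 hQ]
  have hdQ : dx Q = X 0 * pd 0 Q + X 1 * pd 1 Q := by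
    rw [dx_eq, EE_sum _ Q 2 hQ, Finset.sum_range_succ, Finset.sum_range_one]
  have hdR : dx R = X 0 * pd 0 R + X 1 * pd 1 R := by
    rw [dx_eq, EE_sum _ R 2 hR, Finset.sum_range_succ, Finset.sum_range_one]
  rw [Finset.sum_range_succ, Finset.sum_range_one, Finset.sum_range_succ, Finset.sum_range_one,
    Function.iterate_zero, id, id, Function.iterate_one, hdQ, hdR]
  ring

theorem comm_first (Q R : EDP K) (hQ : First Q) (hR : First R)
    (h : Q * pdE 0 R - R * pdE 0 Q +
      PowerSeries.C (X 0) * (pdE 0 Q * pdE 1 R - pdE 0 R * pdE 1 Q) = 0) : EqCommute Q R := by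
  intro n
  have h1 := congrArg (PowerSeries.coeff n) h
  rw [map_zero, map_add, map_sub, PowerSeries.coeff_C_mul, map_sub, mul_comm R,
    mul_comm (pdE 0 R), PowerSeries.coeff_mul, PowerSeries.coeff_mul, PowerSeries.coeff_mul,
    PowerSeries.coeff_mul, ← Finset.sum_sub_distrib, ← Finset.sum_sub_distrib, Finset.mul_sum,
    ← Finset.sum_add_distrib] at h1
  rw [← h1]
  refine Finset.sum_congr rfl fun ij _ => ?_
  rw [brk_first _ _ (fun k hk => ?_) (fun k hk => ?_)]
  · simp only [coeff_pdE]
    ring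
  · have := congrArg (PowerSeries.coeff ij.1) (hQ k hk)
    rwa [coeff_pdE, map_zero] at this
  · have := congrArg (PowerSeries.coeff ij.2) (hR k hk)
    rwa [coeff_pdE, map_zero] at this

theorem first_w (β : ℕ → PowerSeries K) : First (ww β) := by
  intro k hk
  ext1 n
  obtain ⟨j, rfl⟩ : ∃ j, k = j + 2 := ⟨k - 2, by omega⟩
  rw [coeff_pdE, map_zero]
  unfold ww
  rw [PowerSeries.coeff_mk]
  show pderiv (j + 1) _ = 0
  split_ifs
  · exact pderiv_C
  · rw [pderiv_C_mul, Derivation.leibniz_pow, pderiv_X_of_ne (by omega)]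
    simp

theorem fam_comm (β : ℕ → PowerSeries K) (d e : ℕ) : EqCommute (fam β d) (fam β e) := by
  set w : EDP K := ww β with hw
  have fw : First w := first_w β
  have ff : ∀ n, First (fam β n) := fun n => (first_CX _).mul (fw.pow n)
  apply comm_first _ _ (ff d) (ff e)
  obtain ⟨A, hA⟩ := pdE_pow 0 w d
  obtain ⟨B, hB⟩ := pdE_pow 0 w e
  have key : ∀ n (A : EDP K), (∀ j, pdE j (w ^ n) = A * pdE j w) →
      fam β n = PowerSeries.C (C (PowerSeries.C (((n.factorial : ℕ) : K)⁻¹))) *
        PowerSeries.C (X 0) * w ^ n ∧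
      pdE 0 (fam β n) = PowerSeries.C (C (PowerSeries.C (((n.factorial : ℕ) : K)⁻¹))) *
        PowerSeries.C (X 0) * (A * pdE 0 w) ∧
      pdE 1 (fam β n) = PowerSeries.C (C (PowerSeries.C (((n.factorial : ℕ) : K)⁻¹))) *
        (w ^ n + PowerSeries.C (X 0) * (A * pdE 1 w)) := by
    intro n A hA
    have e0 : fam β n = PowerSeries.C (C (PowerSeries.C (((n.factorial : ℕ) : K)⁻¹)) * X 0) * w ^ n := rfl
    refine ⟨?_, ?_, ?_⟩
    · rw [e0, map_mul]
    · rw [e0, pdE_mul, pdE_C, pd_CX0, if_pos rfl, hA, map_mul]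
      simp
    · rw [e0, pdE_mul, pdE_C, pd_CX0, if_neg one_ne_zero, if_pos rfl, hA, map_mul]
      ring
  obtain ⟨h1, h2, h3⟩ := key d A hA
  obtain ⟨h4, h5, h6⟩ := key e B hB
  rw [h2, h3, h5, h6, h1, h4]
  ring

theorem fam_def (β : ℕ → PowerSeries K) : IsDeformation (fam β) :=
  ⟨fam_deg β, fam_lead β, fam_comm β⟩

/-! ### the first flow -/

theorem coeff_fam (β : ℕ → PowerSeries K) (n : ℕ) (hn : n ≠ 0) :
    PowerSeries.coeff n (fam β 1) = monomial (Finsupp.single 0 (n + 1)) (β n) := by
  unfold fam ww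
  rw [pow_one, PowerSeries.coeff_C_mul, PowerSeries.coeff_mk, if_neg hn, Nat.factorial_one,
    Nat.cast_one, inv_one, map_one, map_one, one_mul, ← C_mul_X_pow_eq_monomial, pow_succ]
  ring

theorem fam_b (β : ℕ → PowerSeries K) (k : ℕ) (hk : 2 ≤ k) : bser (fam β) k = 0 := by
  classical
  unfold bser
  rw [coeff_fam β (k - 1) (by omega), coeff_monomial, if_neg]
  intro h
  have := DFunLike.congr_fun h 0
  rw [Finsupp.single_eq_same, Finsupp.single_eq_of_ne (by omega)] at this
  omega

/-! ### the invariant -/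

theorem weight_one (f : DP K) (hf : f.IsWeightedHomogeneous (fun j : ℕ => j + 1) 1) :
    ∃ a : PowerSeries K, f = C a * X 0 := by
  classical
  refine ⟨coeff (Finsupp.single 0 1) f, ?_⟩
  ext1 s
  rw [coeff_C_mul, coeff_X]
  by_cases hs : coeff s f = 0
  · split_ifs with h
    · rw [h]; simp
    · rw [hs]; simp
  · have h1 := hf hs
    rw [Finsupp.weight_apply] at h1
    have h2 : s = Finsupp.single 0 1 := by
      have hz : ∀ k, 1 ≤ k → s k = 0 := by
        intro k hk
        by_contra hne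
        have hk2 : k ∈ s.support := Finsupp.mem_support_iff.2 hne
        have h3 : s k • (k + 1) ≤ s.sum fun i c => c • (i + 1) :=
          Finset.single_le_sum (f := fun i => s i • (i + 1)) (fun _ _ => Nat.zero_le _) hk2
        rw [h1] at h3
        have h4 : 1 ≤ s k := Nat.one_le_iff_ne_zero.2 hne
        have h5 : 1 * 2 ≤ s k * (k + 1) := Nat.mul_le_mul h4 (by omega)
        rw [smul_eq_mul] at h3
        omega
      have hs0 : s = Finsupp.single 0 (s 0) := by
        ext k
        rcases k with _ | k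
        · simp
        · rw [hz (k + 1) (by omega)]; simp
      rw [hs0, Finsupp.sum_single_index (by simp)] at h1
      have h6 : s 0 = 1 := by simpa using h1
      rw [hs0, h6]
    rw [h2, if_pos rfl, mul_one]

theorem substP_monomial (W : EDP K) (s : ℕ →₀ ℕ) (c : PowerSeries K) :
    substP W (monomial s c) = substC W c *
      s.prod fun k m => (PowerSeries.C (X k) + dxE^[k + 1] W) ^ m := by
  classical
  unfold substP
  by_cases hc : c = 0
  · subst hc
    have h0 : substC W 0 = 0 := by
      unfold substC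
      ext1 n
      have : ∀ m, (⇑(PowerSeries.derivative K))^[m] (0 : PowerSeries K) = 0 := by
        intro m
        induction m with
        | zero => rfl
        | succ m ih => rw [Function.iterate_succ_apply', ih, map_zero]
      simp [this]
    simp [h0]
  · rw [support_monomial, if_neg hc, Finset.sum_singleton, coeff_monomial, if_pos rfl]

theorem coeff0_substC (W : EDP K) (c : PowerSeries K) :
    PowerSeries.coeff 0 (substC W c) = C c := by
  unfold substC
  rw [PowerSeries.coeff_mk]
  simp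

theorem coeff1_substC (W : EDP K) (c : PowerSeries K) :
    PowerSeries.coeff 1 (substC W c) = C (PowerSeries.derivative K c) * PowerSeries.coeff 1 W := by
  unfold substC
  rw [PowerSeries.coeff_mk, Finset.sum_range_succ, Finset.sum_range_one]
  simp [PowerSeries.coeff_one]

theorem dx_zero' : dx (0 : DP K) = 0 := by
  have := dx_add (0 : DP K) 0
  simpa using this

theorem coeff0_dxE {V : EDP K} (h : PowerSeries.coeff 0 V = 0) : PowerSeries.coeff 0 (dxE V) = 0 := by
  unfold dxE
  rw [PowerSeries.coeff_mk, h, dx_zero']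

theorem coeff0_dxE_iter {V : EDP K} (h : PowerSeries.coeff 0 V = 0) (k : ℕ) :
    PowerSeries.coeff 0 (dxE^[k] V) = 0 := by
  induction k with
  | zero => exact h
  | succ k ih => rw [Function.iterate_succ_apply']; exact coeff0_dxE ih

theorem coeff0_substP (W : EDP K) (hW : PowerSeries.coeff 0 W = 0) (G : DP K) :
    PowerSeries.coeff 0 (substP W G) = G := by
  classical
  unfold substP
  rw [map_sum]
  conv_rhs => rw [G.as_sum]
  refine Finset.sum_congr rfl fun s _ => ?_
  rw [PowerSeries.coeff_zero_eq_constantCoeff_apply, map_mul,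
    ← PowerSeries.coeff_zero_eq_constantCoeff_apply, coeff0_substC, monomial_eq]
  congr 1
  rw [map_finsuppProd]
  refine Finsupp.prod_congr fun k _ => ?_
  rw [map_pow, map_add, ← PowerSeries.coeff_zero_eq_constantCoeff_apply,
    ← PowerSeries.coeff_zero_eq_constantCoeff_apply, coeff0_dxE_iter hW, add_zero,
    PowerSeries.coeff_C, if_pos rfl]

theorem dCX (a : PowerSeries K) : dx (C a * X 0 : DP K) =
    X 0 * C (PowerSeries.derivative K a) * X 0 + C a * X 1 := by
  rw [dx_mul_X, dx_C]

/-- Coefficient of `ε` in every flow is the same for Miura equivalent deformations. -/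
theorem inv_all (Q Q' : ℕ → EDP K) (hQ : IsDeformation Q) (hQ' : IsDeformation Q')
    (h : MiuraEquivalent Q Q') (d : ℕ) : PowerSeries.coeff 1 (Q d) = PowerSeries.coeff 1 (Q' d) := by
  classical
  obtain ⟨W, hW0, hW, h⟩ := h
  have h1 := congrArg (PowerSeries.coeff 1) (h d)
  have hanti : (antidiagonal 1 : Finset (ℕ × ℕ)) = {(0, 1), (1, 0)} := rfl
  obtain ⟨f, hf⟩ := weight_one (PowerSeries.coeff 1 W) (by simpa using hW 1)
  obtain ⟨c, hc⟩ : ∃ c : PowerSeries K, c = PowerSeries.monomial d (((d.factorial : ℕ) : K)⁻¹) :=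
    ⟨_, rfl⟩
  have l1 : PowerSeries.coeff 0 (Q d) = C c * X 0 := by rw [hQ.lead d, hc]
  have l2 : PowerSeries.coeff 0 (Q' d) = C c * X 0 := by rw [hQ'.lead d, hc]
  have e1 : ∀ b : PowerSeries K, (C b * X 0 : DP K) = monomial (Finsupp.single 0 1) b := by
    intro b
    rw [C_mul_X_eq_monomial]
  -- left-hand side
  have hev : PowerSeries.coeff 1 (evol (Q d) W) =
      (C c * X 0) * C (PowerSeries.derivative K f) * X 0 +
        C f * (X 0 * C (PowerSeries.derivative K c) * X 0 + C c * X 1) := by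
    unfold evol
    rw [PowerSeries.coeff_mk, hanti, Finset.sum_insert (by simp), Finset.sum_singleton, l1,
      hW0, hf]
    have hz : ∑ᶠ k : ℕ, dx^[k] (PowerSeries.coeff 1 (Q d)) * pd k (0 : DP K) = 0 := by
      simp only [pd_zero', mul_zero, finsum_zero]
    rw [hz, add_zero]
    show EE (fun k => dx^[k] (C c * X 0)) (C f * X 0) = _
    rw [EE_mul_X, EE_C, Function.iterate_zero, id, zero_add, Function.iterate_one, dCX]
  -- right-hand side
  have hdx0 : PowerSeries.coeff 0 (dxE W) = 0 := coeff0_dxE hW0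
  have hdx1 : PowerSeries.coeff 1 (dxE W) = X 0 * C (PowerSeries.derivative K f) * X 0 + C f * X 1 := by
    unfold dxE
    rw [PowerSeries.coeff_mk, hf, dCX]
  have hs : PowerSeries.coeff 1 (substE W (Q' d)) =
      C c * (X 0 * C (PowerSeries.derivative K f) * X 0 + C f * X 1) +
        (C (PowerSeries.derivative K c) * (C f * X 0)) * X 0 + PowerSeries.coeff 1 (Q' d) := by
    unfold substE
    rw [PowerSeries.coeff_mk, hanti, Finset.sum_insert (by simp), Finset.sum_singleton,
      coeff0_substP W hW0, l2, e1, substP_monomial, Finsupp.prod_single_index (by simp)]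
    congr 1
    rw [PowerSeries.coeff_mul, hanti, Finset.sum_insert (by simp), Finset.sum_singleton,
      coeff0_substC, coeff1_substC W, hf, pow_one, zero_add, Function.iterate_one]
    rw [map_add, map_add, PowerSeries.coeff_C, if_neg one_ne_zero,
      zero_add, hdx1, hdx0, add_zero, PowerSeries.coeff_C, if_pos rfl]
  rw [map_add, hev, hs] at h1
  linear_combination h1


end Pool.Agent.H58RH
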